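import Mathlib
import Pool.Agent.PDX.Stmts

/-!
# PDX, module ZRO: zeros in planar degree sequences do not matter
-/

set_option autoImplicit false

namespace Pool.Agent.PDX.H32

open Pool.Agent.PDN Pool.Agent.PDX

variable {V W : Type}

theorem neighborSet_map (G : SimpleGraph V) (f : V ↪ W) (v : V) :
    (G.map f).neighborSet (f v) = f '' G.neighborSet v := by
  ext w
  rw [SimpleGraph.mem_neighborSet, SimpleGraph.map_adj]
  constructor
  · rintro ⟨a, b, hab, h1, h2⟩
    have h3 := f.injective h1
    subst h3
    exact ⟨b, hab, h2⟩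
  · rintro ⟨b, hb, h2⟩
    exact ⟨v, b, hb, rfl, h2⟩

theorem card_map (G : SimpleGraph V) (f : V ↪ W) (v : V) :
    Nat.card ((G.map f).neighborSet (f v)) = Nat.card (G.neighborSet v) := by
  rw [neighborSet_map, Nat.card_image_of_injective f.injective]

theorem card_map_zero (G : SimpleGraph V) (f : V ↪ W) (w : W) (hw : ∀ v, f v ≠ w) :
    Nat.card ((G.map f).neighborSet w) = 0 := by
  have h1 : (G.map f).neighborSet w = ∅ := by
    ext x
    rw [SimpleGraph.mem_neighborSet, SimpleGraph.map_adj]
    constructor
    · rintro ⟨a, b, hab, h1, h2⟩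
      exact absurd h1 (hw a)
    · intro h
      exact absurd h (Set.notMem_empty x)
  rw [h1]
  simp

theorem map_eq_sum [Fintype V] (g : V → ℕ) :
    Finset.univ.val.map g = ∑ v, ({g v} : Multiset ℕ) := by
  have h1 := Multiset.sum_map_singleton (Finset.univ.val.map g)
  rw [Multiset.map_map] at h1
  exact h1.symm

theorem zro (map : MapStmt) : ZroStmt := by
  classical
  intro s z hs
  constructor
  · rintro ⟨W, _, H, hP, hd⟩
    have hne : ∀ u w, H.Adj u w → Nat.card (H.neighborSet u) ≠ 0 := by
      intro u w h
      have h1 : Nonempty (H.neighborSet u) := ⟨⟨w, h⟩⟩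
      exact Nat.card_ne_zero.2 ⟨h1, inferInstance⟩
    have hG : (H.induce {w | Nat.card (H.neighborSet w) ≠ 0}).map
        (Function.Embedding.subtype (fun w => w ∈ {w | Nat.card (H.neighborSet w) ≠ 0})) = H := by
      ext u w
      rw [SimpleGraph.map_adj]
      constructor
      · rintro ⟨a, b, hab, h1, h2⟩
        have h3 : H.Adj (a : W) b := hab
        rw [← h1, ← h2]
        exact h3
      · intro h
        exact ⟨⟨u, hne u w h⟩, ⟨w, hne w u h.symm⟩, h, rfl, rfl⟩
    refine ⟨{w | Nat.card (H.neighborSet w) ≠ 0}, inferInstance,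
      H.induce {w | Nat.card (H.neighborSet w) ≠ 0}, ?_, ?_⟩
    · have h1 := map _ _ (H.induce {w | Nat.card (H.neighborSet w) ≠ 0})
        (Function.Embedding.subtype (fun w => w ∈ {w | Nat.card (H.neighborSet w) ≠ 0}))
      rw [hG] at h1
      exact h1.1 hP
    · have h2 : ∀ v : {w // w ∈ {w | Nat.card (H.neighborSet w) ≠ 0}},
          Nat.card ((H.induce {w | Nat.card (H.neighborSet w) ≠ 0}).neighborSet v) =
          Nat.card (H.neighborSet v.1) := by
        intro v
        have h3 := card_map (H.induce {w | Nat.card (H.neighborSet w) ≠ 0})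
          (Function.Embedding.subtype (fun w => w ∈ {w | Nat.card (H.neighborSet w) ≠ 0})) v
        rw [hG] at h3
        exact h3.symm
      have h4 : Finset.univ.val.map (fun v : {w // w ∈ {w | Nat.card (H.neighborSet w) ≠ 0}} =>
          Nat.card ((H.induce {w | Nat.card (H.neighborSet w) ≠ 0}).neighborSet v)) =
          (Finset.univ.val.map (fun w => Nat.card (H.neighborSet w))).filter (fun x => x ≠ 0) := by
        rw [Multiset.filter_map]
        rw [map_eq_sum, Finset.sum_congr rfl fun v _ => by rw [h2 v]]
        rw [← Finset.sum_subtype (Finset.univ.filter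
          (fun w => w ∈ {w | Nat.card (H.neighborSet w) ≠ 0})) (by simp)
          (fun w => ({Nat.card (H.neighborSet w)} : Multiset ℕ))]
        have h5 := Multiset.sum_map_singleton ((Finset.univ.filter
          (fun w => w ∈ {w | Nat.card (H.neighborSet w) ≠ 0})).val.map
            (fun w => Nat.card (H.neighborSet w)))
        rw [Multiset.map_map] at h5
        exact h5
      refine h4.trans ?_
      rw [hd, Multiset.filter_add, Multiset.filter_eq_self.2 hs, Multiset.filter_eq_nil.2, add_zero]
      intro a ha h
      exact h (Multiset.eq_of_mem_replicate ha)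
  · rintro ⟨V, _, G, hP, hd⟩
    refine ⟨V ⊕ Fin z, inferInstance, G.map Function.Embedding.inl,
      (map _ _ G Function.Embedding.inl).2 hP, ?_⟩
    rw [map_eq_sum, Fintype.sum_sum_type, ← hd, map_eq_sum]
    have h1 : ∀ v : V, Nat.card ((G.map Function.Embedding.inl).neighborSet
        (Sum.inl v : V ⊕ Fin z)) = Nat.card (G.neighborSet v) :=
      fun v => card_map G Function.Embedding.inl v
    have h2 : ∀ i : Fin z, Nat.card ((G.map Function.Embedding.inl).neighborSet
        (Sum.inr i : V ⊕ Fin z)) = 0 := by
      intro i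
      apply card_map_zero
      intro v h
      exact absurd h Sum.inl_ne_inr
    rw [Finset.sum_congr rfl fun v _ => by rw [h1 v]]
    congr 1
    rw [Finset.sum_congr rfl fun v _ => by rw [h2 v]]
    rw [Finset.sum_const, Finset.card_univ, Fintype.card_fin, Multiset.nsmul_singleton]

end Pool.Agent.PDX.H32
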